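import Pool.Agent.Helper99.SZ.Stmts3
import Pool.Agent.Helper86.BK.AN6
import Pool.Agent.Helper86.BK.AN8

set_option autoImplicit false

namespace Pool.Helper99.SZ

theorem ad1_norm (v K Lc : ℕ) (j1 : Fin v) (x : ℂ) (ζ : Fin v → ℂ) (c : ℂ) (X1 Z1 Y G : ℝ)
    (hX1 : 1 ≤ X1) (hZ1 : 1 ≤ Z1) (hG : 0 ≤ G) (hx : ‖x‖ ≤ X1)
    (hζ : ∀ i, ‖ζ i‖ ≤ Z1) (hc : ‖c * x‖ * Real.exp G ≤ Y) (j : Sx v K × Fin Lc) :
    ‖(x ^ (j.1.1 j1 : ℕ) * ∏ i ∈ Finset.univ.erase j1, ζ i ^ (j.1.1 i : ℕ)) *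
          Complex.exp (((j.2 : ℕ) : ℂ) * (c * x))‖ ≤ X1 ^ K * Z1 ^ K * Real.exp (Lc * Y) := by
  have hcx : ‖c * x‖ ≤ Y := by
    refine le_trans ?_ hc
    have h1 : (1 : ℝ) ≤ Real.exp G := Real.one_le_exp hG
    nlinarith [norm_nonneg (c * x)]
  have hj : ((j.2 : ℕ) : ℝ) ≤ Lc := by exact_mod_cast j.2.2.le
  have he : Real.exp ((((j.2 : ℕ) : ℂ) * (c * x)).re) ≤ Real.exp (Lc * Y) := by
    rw [Real.exp_le_exp]
    refine (Complex.re_le_norm _).trans ?_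
    rw [norm_mul, Complex.norm_natCast]
    exact mul_le_mul hj hcx (norm_nonneg _) (Nat.cast_nonneg _)
  have ha : ‖x‖ ^ (j.1.1 j1 : ℕ) ≤ X1 ^ K :=
    (pow_le_pow_left₀ (norm_nonneg _) hx _).trans
      (pow_le_pow_right₀ hX1 (Nat.lt_succ_iff.1 (j.1.1 j1).2))
  have hb : ‖∏ i ∈ Finset.univ.erase j1, ζ i ^ (j.1.1 i : ℕ)‖ ≤ Z1 ^ K := by
    rw [norm_prod]
    calc ∏ i ∈ Finset.univ.erase j1, ‖ζ i ^ (j.1.1 i : ℕ)‖
        ≤ ∏ i ∈ Finset.univ.erase j1, Z1 ^ (j.1.1 i : ℕ) := by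
          refine Finset.prod_le_prod (fun i _ => norm_nonneg _) fun i _ => ?_
          rw [norm_pow]
          exact pow_le_pow_left₀ (norm_nonneg _) (hζ i) _
      _ = Z1 ^ (∑ i ∈ Finset.univ.erase j1, (j.1.1 i : ℕ)) := Finset.prod_pow_eq_pow_sum _ _ _
      _ ≤ Z1 ^ K := by
          refine pow_le_pow_right₀ hZ1 (le_trans ?_ j.1.2)
          exact Finset.sum_le_sum_of_subset (Finset.erase_subset _ _)
  rw [norm_mul, norm_mul, norm_pow, Complex.norm_exp]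
  refine mul_le_mul (mul_le_mul ha hb (norm_nonneg _) (by positivity)) he (Real.exp_pos _).le
    (by positivity)

theorem st_AD1 (h0 : ST_AD0) : ST_AD1 := by
  intro v K Lc t j1 hK hLc ht x ζ c δ X1 Z1 Y G T' hX1 hZ1 hY hG hx hζ hc hδ hT' hGt
  classical
  set N : ℕ := Fintype.card (Sx v K × Fin Lc) with hN
  set ε : ℝ := Real.exp (-T') with hε
  have hεpos : 0 < ε := Real.exp_pos _
  have hε1 : ε ≤ 1 := by
    rw [hε, Real.exp_le_one_iff]
    linarith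
  have hεc : (ε : ℂ) ≠ 0 := by exact_mod_cast hεpos.ne'
  set B : ℝ := X1 ^ K * Z1 ^ K * Real.exp (Lc * Y) with hB
  have hBpos : 0 ≤ B := by positivity
  let M0 : Sx v K × Fin Lc → Sx v K × Fin Lc → ℂ := fun r j =>
    (x r ^ (j.1.1 j1 : ℕ) * ∏ i ∈ Finset.univ.erase j1, ζ r i ^ (j.1.1 i : ℕ)) *
      Complex.exp (((j.2 : ℕ) : ℂ) * (c * x r))
  let E : Sx v K × Fin Lc → Sx v K × Fin Lc → ℂ := fun r j => δ r j.2 / (ε : ℂ)
  have hM0 : ∀ r j, ‖M0 r j‖ ≤ B := fun r j =>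
    ad1_norm v K Lc j1 (x r) (ζ r) c X1 Z1 Y G hX1 hZ1 hG (hx r) (hζ r) (hc r) j
  have hE : ∀ r j, ‖E r j‖ ≤ 1 := by
    intro r j
    simp only [E]
    rw [norm_div, div_le_one (norm_pos_iff.2 hεc), Complex.norm_real,
      Real.norm_of_nonneg hεpos.le]
    exact hδ r j.2
  have hM1 : ∀ r j, ‖M0 r j * E r j‖ ≤ B := by
    intro r j
    rw [norm_mul]
    calc ‖M0 r j‖ * ‖E r j‖ ≤ B * 1 := mul_le_mul (hM0 r j) (hE r j) (norm_nonneg _) hBpos
      _ = B := mul_one B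
  have hmat : (Matrix.of (fun r j : Sx v K × Fin Lc =>
        (x r ^ (j.1.1 j1 : ℕ) * ∏ i ∈ Finset.univ.erase j1, ζ r i ^ (j.1.1 i : ℕ)) *
          (Complex.exp (((j.2 : ℕ) : ℂ) * (c * x r)) * (1 + δ r j.2)))) =
      Matrix.of (fun r j => M0 r j + (ε : ℂ) * (M0 r j * E r j)) := by
    ext r j
    simp only [Matrix.of_apply, E, M0]
    field_simp
  rw [hmat, Pool.Helper99.BK.an8_det]
  refine (norm_sum_le _ _).trans ?_
  have hterm : ∀ I ∈ (Finset.univ : Finset (Finset (Sx v K × Fin Lc))),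
      ‖(ε : ℂ) ^ (N - I.card) *
        (Matrix.of (fun r j => if j ∈ I then M0 r j else M0 r j * E r j)).det‖ ≤
      (N.factorial : ℝ) * B ^ N * Real.exp (-(G * t)) := by
    intro I _
    have hI : I.card ≤ N := Finset.card_le_univ I
    rw [norm_mul, norm_pow, Complex.norm_real, Real.norm_of_nonneg hεpos.le]
    have hfac : 0 ≤ (N.factorial : ℝ) * B ^ N := by positivity
    by_cases h2 : N ≤ 2 * I.card
    · have h8 := h0 v K Lc t j1 hK hLc ht I h2 x ζ c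
        (Matrix.of (fun p j => M0 p j * E p j)) X1 Z1 Y G B hX1 hZ1 hY hG hx hζ hc le_rfl hM1
      have h9 : ε ^ (N - I.card) ≤ 1 := pow_le_one₀ hεpos.le hε1
      calc ε ^ (N - I.card) * ‖(Matrix.of (fun r j => if j ∈ I then M0 r j
            else M0 r j * E r j)).det‖
          ≤ 1 * ((N.factorial : ℝ) * B ^ N * Real.exp (-(G * t))) :=
            mul_le_mul h9 h8 (norm_nonneg _) (by norm_num)
        _ = _ := one_mul _
    · push Not at h2
      have h8 : ‖(Matrix.of (fun r j => if j ∈ I then M0 r j else M0 r j * E r j)).det‖ ≤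
          (N.factorial : ℝ) * B ^ N := by
        refine Pool.Helper99.BK.st_AN6 (Sx v K × Fin Lc) _ B ?_
        intro p j
        rw [Matrix.of_apply]
        by_cases h : j ∈ I
        · rw [if_pos h]; exact hM0 p j
        · rw [if_neg h]; exact hM1 p j
      have h9 : ε ^ (N - I.card) ≤ Real.exp (-(G * t)) := by
        rw [hε, ← Real.exp_nat_mul, Nat.cast_sub hI, Real.exp_le_exp]
        have h3 : (2 : ℝ) * I.card ≤ N := by exact_mod_cast h2.le
        nlinarith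
      calc ε ^ (N - I.card) * ‖(Matrix.of (fun r j => if j ∈ I then M0 r j
            else M0 r j * E r j)).det‖
          ≤ Real.exp (-(G * t)) * ((N.factorial : ℝ) * B ^ N) :=
            mul_le_mul h9 h8 (norm_nonneg _) (Real.exp_pos _).le
        _ = _ := mul_comm _ _
  refine (Finset.sum_le_sum hterm).trans ?_
  rw [Finset.sum_const, Finset.card_univ, Fintype.card_finset, nsmul_eq_mul]
  push_cast
  apply le_of_eq
  ring

end Pool.Helper99.SZ
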